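import Mathlib

set_option autoImplicit false

/-! Primitives of locally exact data along continuous maps. -/

namespace Pool.Agent.Helper119.Hur

open Set Topology Real
open scoped unitInterval

/-- local primitives which differ by locally constant functions -/
structure PSys (N : Type*) [TopologicalSpace N] where
  U : N → Set N
  isOpen : ∀ x, IsOpen (U x)
  mem : ∀ x, x ∈ U x
  g : N → N → ℝ
  loc : ∀ x y, ∀ z ∈ U x ∩ U y, ∀ᶠ w in 𝓝 z, g x w - g y w = g x z - g y z

/-- the reals with the discrete topology -/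
structure DR where
  v : ℝ

instance : TopologicalSpace DR := ⊥
instance : DiscreteTopology DR := ⟨rfl⟩

variable {N : Type*} [TopologicalSpace N] (P : PSys N)

theorem cc_cont (i j : N) : ContinuousOn (fun p : N × DR => (⟨p.2.v + (P.g i p.1 - P.g j p.1)⟩ : DR))
    ((P.U i ∩ P.U j) ×ˢ univ) := by
  rintro ⟨z, v⟩ hz
  apply ContinuousAt.continuousWithinAt
  have h1 : ∀ᶠ w in 𝓝 z, P.g i w - P.g j w = P.g i z - P.g j z := P.loc i j z hz.1
  have h2 : ∀ᶠ q : N × DR in 𝓝 (z, v), q.2 = v := by
    have : Filter.Tendsto (fun q : N × DR => q.2) (𝓝 (z, v)) (𝓝 v) := continuous_snd.continuousAt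
    rw [nhds_discrete DR] at this
    exact Filter.tendsto_pure.mp this
  have h3 : ∀ᶠ q : N × DR in 𝓝 (z, v), P.g i q.1 - P.g j q.1 = P.g i z - P.g j z := by
    have : Filter.Tendsto (fun q : N × DR => q.1) (𝓝 (z, v)) (𝓝 z) := continuous_fst.continuousAt
    exact this.eventually h1
  have h4 : (fun p : N × DR => (⟨p.2.v + (P.g i p.1 - P.g j p.1)⟩ : DR)) =ᶠ[𝓝 (z, v)]
      fun _ => (⟨v.v + (P.g i z - P.g j z)⟩ : DR) := by
    filter_upwards [h2, h3] with q hq1 hq2
    rw [hq1, hq2]
  exact continuousAt_const.congr h4.symm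

/-- the bundle of germs of primitives -/
noncomputable def core : FiberBundleCore N N DR where
  baseSet := P.U
  isOpen_baseSet := P.isOpen
  indexAt := id
  mem_baseSet_at := P.mem
  coordChange i j x v := ⟨v.v + (P.g i x - P.g j x)⟩
  coordChange_self i x _ v := by simp
  continuousOn_coordChange i j := cc_cont P i j
  coordChange_comp i j k x _ v := by
    simp only [DR.mk.injEq]
    ring

variable {X Y : Type*} [TopologicalSpace X] [TopologicalSpace Y]

/-- primitive along a map -/
def Prim (u : X → N) (G : X → ℝ) : Prop :=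
  ∀ x : X, ∀ i, u x ∈ P.U i → ∀ᶠ y in 𝓝 x, G y - P.g i (u y) = G x - P.g i (u x)

variable {P}

theorem Prim.comp {u : X → N} {G : X → ℝ} (h : Prim P u G) {k : Y → X} (hk : Continuous k) :
    Prim P (u ∘ k) (G ∘ k) := fun y i hi => hk.continuousAt.eventually (h (k y) i hi)

theorem Prim.sub_eq [PreconnectedSpace X] {u : X → N} {G G' : X → ℝ} (h : Prim P u G)
    (h' : Prim P u G') (x y : X) : G x - G' x = G y - G' y := by
  have hloc : IsLocallyConstant (fun x => G x - G' x) := by
    rw [IsLocallyConstant.iff_eventually_eq]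
    intro z
    filter_upwards [h z (u z) (P.mem _), h' z (u z) (P.mem _)] with w h1 h2
    linarith
  exact hloc.apply_eq_of_isPreconnected isPreconnected_univ (mem_univ x) (mem_univ y)

theorem exists_prim [SimplyConnectedSpace X] [LocallyPathConnectedSpace X] (u : C(X, N)) :
    ∃ G, Prim P u G := by
  obtain ⟨x0⟩ : Nonempty X := inferInstance
  have hcov : IsCoveringMap (Bundle.TotalSpace.proj : Bundle.TotalSpace DR (core P).Fiber → N) :=
    FiberBundle.isCoveringMap
  obtain ⟨F, ⟨-, hF⟩, -⟩ := hcov.existsUnique_continuousMap_lifts u x0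
    (⟨u x0, (⟨0⟩ : DR)⟩ : Bundle.TotalSpace DR (core P).Fiber) rfl
  have hF' : ∀ x, (F x).1 = u x := fun x => congrFun hF x
  let G : X → ℝ := fun x => DR.v (F x).2 + P.g (u x) (u x)
  refine ⟨G, ?_⟩
  intro x i hi
  have hcont : ContinuousAt F x := F.continuous.continuousAt
  have hmem : F x ∈ ((core P).localTriv i).source := by
    rw [Bundle.Trivialization.mem_source]
    change (F x).1 ∈ P.U i
    rw [hF']
    exact hi
  have h1 : ContinuousAt (fun y => (((core P).localTriv i) (F y)).2) x :=
    ((((core P).localTriv i).continuousOn.continuousAt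
      (((core P).localTriv i).open_source.mem_nhds hmem)).comp hcont).snd
  have h2 : ∀ᶠ y in 𝓝 x, (((core P).localTriv i) (F y)).2 = (((core P).localTriv i) (F x)).2 := by
    have h3 := h1.tendsto
    rw [nhds_discrete DR] at h3
    exact Filter.tendsto_pure.mp h3
  have h3 : ∀ y, DR.v (((core P).localTriv i) (F y)).2 = G y - P.g i (u y) := by
    intro y
    rw [FiberBundleCore.localTriv_apply]
    change DR.v (F y).2 + (P.g (F y).1 (F y).1 - P.g i (F y).1) = G y - P.g i (u y)
    rw [hF']
    simp only [G]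
    ring
  filter_upwards [h2] with y hy
  rw [← h3, ← h3, hy]

/-- two primitives give the same increment, wherever the maps agree on an interval -/
theorem Prim.incr_eq {X' : Type*} [TopologicalSpace X'] {u : X → N} {G : X → ℝ} (h : Prim P u G)
    {u' : X' → N} {G' : X' → ℝ} (h' : Prim P u' G') {k : I → X} (hk : Continuous k) {k' : I → X'}
    (hk' : Continuous k') (he : ∀ t, u (k t) = u' (k' t)) :
    G (k 1) - G (k 0) = G' (k' 1) - G' (k' 0) := by
  have h1 : Prim P (u ∘ k) (G ∘ k) := h.comp hk
  have h2 : Prim P (u ∘ k) (G' ∘ k') := by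
    have : u ∘ k = u' ∘ k' := funext he
    rw [this]
    exact h'.comp hk'
  have h3 := h1.sub_eq h2 1 0
  simp only [Function.comp] at h3
  linarith

variable (P)

/-- the map on the line -/
noncomputable def onLine (f : C(Circle, N)) : C(ℝ, N) := ⟨fun x => f (Circle.exp x), by fun_prop⟩

/-- period of a circle map -/
noncomputable def per (f : C(Circle, N)) : ℝ :=
  (exists_prim (P := P) (onLine f)).choose (2 * π) - (exists_prim (P := P) (onLine f)).choose 0

variable {P}

theorem per_eq {f : C(Circle, N)} {G : ℝ → ℝ} (h : Prim P (onLine f) G) :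
    per P f = G (2 * π) - G 0 := by
  have h1 := (exists_prim (P := P) (onLine f)).choose_spec.sub_eq h (2 * π) 0
  unfold per
  linarith

theorem per_homotopic {f g : C(Circle, N)} (h : f.Homotopic g) : per P f = per P g := by
  obtain ⟨H⟩ := h
  let F : C(ℝ × ℝ, N) := ⟨fun q => H (projIcc 0 1 zero_le_one q.1, Circle.exp q.2), by fun_prop⟩
  obtain ⟨G, hG⟩ := exists_prim (P := P) F
  have hsh : Continuous (fun q : ℝ × ℝ => (q.1, q.2 + 2 * π)) := by fun_prop
  have hG2 : Prim P F (G ∘ fun q : ℝ × ℝ => (q.1, q.2 + 2 * π)) := by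
    have h1 := hG.comp hsh
    have h2 : (F ∘ fun q : ℝ × ℝ => (q.1, q.2 + 2 * π)) = F := by
      funext q
      change H (projIcc 0 1 zero_le_one q.1, Circle.exp (q.2 + 2 * π)) =
        H (projIcc 0 1 zero_le_one q.1, Circle.exp q.2)
      rw [Circle.exp_add_two_pi]
    rwa [h2] at h1
  have h0 : Prim P (onLine f) (fun t => G (0, t)) := by
    have h1 := hG.comp (k := fun t : ℝ => ((0 : ℝ), t)) (by fun_prop)
    have h2 : (F ∘ fun t : ℝ => ((0 : ℝ), t)) = onLine f := by
      funext t
      change H (projIcc 0 1 zero_le_one 0, Circle.exp t) = f (Circle.exp t)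
      rw [projIcc_of_le_left zero_le_one le_rfl]
      exact H.apply_zero _
    rwa [h2] at h1
  have h1 : Prim P (onLine g) (fun t => G (1, t)) := by
    have h1 := hG.comp (k := fun t : ℝ => ((1 : ℝ), t)) (by fun_prop)
    have h2 : (F ∘ fun t : ℝ => ((1 : ℝ), t)) = onLine g := by
      funext t
      change H (projIcc 0 1 zero_le_one 1, Circle.exp t) = g (Circle.exp t)
      rw [projIcc_of_right_le zero_le_one le_rfl]
      exact H.apply_one _
    rwa [h2] at h1
  rw [per_eq h0, per_eq h1]
  have h3 := hG2.sub_eq hG (0, 0) (1, 0)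
  simp only [Function.comp, zero_add] at h3
  linarith

end Pool.Agent.Helper119.Hur
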