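import Pool.Agent.Helper119.HurA
import Pool.Agent.H259R3.GP10

set_option autoImplicit false

/-! Additivity of periods over products of loops; the product decomposition of a circle map. -/

namespace Pool.Agent.Helper119.Hur

open Set Topology Real
open scoped unitInterval ENNReal
open Pool.Agent.H259R3.GP

section per

variable {N : Type*} [TopologicalSpace N] {P : PSys N}

theorem per_lc {p : N} (δ : Path p p) {X : Type*} [TopologicalSpace X] {u : X → N} {G : X → ℝ}
    (h : Prim P u G) {k : I → X} (hk : Continuous k) (he : ∀ t, u (k t) = δ t) :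
    per P (lc δ) = G (k 1) - G (k 0) := by
  obtain ⟨G', hG'⟩ := exists_prim (P := P) (onLine (lc δ))
  rw [per_eq hG']
  have h1 := h.incr_eq hG' hk (k' := fun t : I => 2 * π * (t : ℝ)) (by fun_prop) (fun t => by
    rw [he]
    exact (lc_exp δ t).symm)
  rw [h1]
  simp

theorem per_trans {p : N} (δ δ' : Path p p) :
    per P (lc (δ.trans δ')) = per P (lc δ) + per P (lc δ') := by
  obtain ⟨G, hG⟩ := exists_prim (P := P) (δ.trans δ').extend
  have h0 : per P (lc (δ.trans δ')) = G 1 - G 0 := by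
    have := per_lc (P := P) (δ.trans δ') hG (k := fun t : I => (t : ℝ)) (by fun_prop)
      (fun t => Path.extend_extends' (δ.trans δ') t)
    simpa using this
  have h1 : per P (lc δ) = G (1 / 2) - G 0 := by
    have := per_lc (P := P) δ hG (k := fun t : I => (t : ℝ) / 2) (by fun_prop)
      (fun t => by
        change (δ.trans δ').extend ((t : ℝ) / 2) = δ t
        have ht := t.2
        rw [Path.extend_trans_of_le_half _ _ (by linarith [ht.2])]
        rw [show 2 * ((t : ℝ) / 2) = t by ring]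
        exact Path.extend_extends' _ t)
    simpa using this
  have h2 : per P (lc δ') = G 1 - G (1 / 2) := by
    have := per_lc (P := P) δ' hG (k := fun t : I => ((t : ℝ) + 1) / 2) (by fun_prop)
      (fun t => by
        change (δ.trans δ').extend (((t : ℝ) + 1) / 2) = δ' t
        have ht := t.2
        rw [Path.extend_trans_of_half_le _ _ (by linarith [ht.1])]
        rw [show 2 * (((t : ℝ) + 1) / 2) - 1 = t by ring]
        exact Path.extend_extends' _ t)
    simpa using this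
  rw [h0, h1, h2]
  ring

end per

section PCs

variable {N : Type*} [TopologicalSpace N] {V : Type*} [AddCommGroup V] [Module ℝ V]

theorem PC_bound {φ : C(Circle, N) → V} (h1 : ∀ f g : C(Circle, N), f.Homotopic g → φ f = φ g)
    {p : N} (h2 : ∀ δ δ' : Path p p, φ (lc (δ.trans δ')) = φ (lc δ) + φ (lc δ'))
    (ν : Seminorm ℝ V) {S : Set (LG p)} {M : ℝ} (hM : ∀ ρ : Path p p, LG.mk ρ ∈ S → ν (φ (lc ρ)) ≤ M)
    {n : ℕ} {w : LG p} (h : PC S n w) : ∀ δ : Path p p, LG.mk δ = w → ν (φ (lc δ)) ≤ n * M := by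
  have hrefl : φ (lc (Path.refl p)) = 0 := by
    have h3 := h2 (Path.refl p) (Path.refl p)
    rw [Path.refl_trans_refl] at h3
    simpa using h3
  induction h with
  | one =>
    intro δ hδ
    have h3 : φ (lc δ) = φ (lc (Path.refl p)) :=
      h1 _ _ (lc_homotopic (LG.mk_eq.mp (by rw [hδ, LG.mk_refl])))
    rw [h3, hrefl]
    simp
  | @mul n g a s hs _ ih =>
    intro δ hδ
    obtain ⟨A, rfl⟩ := LG.mk_surj a
    obtain ⟨ρ, rfl⟩ := LG.mk_surj s
    obtain ⟨δ', rfl⟩ := LG.mk_surj g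
    have h3 : LG.mk δ = LG.mk ((A.trans (ρ.trans A.symm)).trans δ') := by
      rw [hδ, LG.mk_mul, LG.mk_mul, LG.mk_mul, LG.mk_inv]
      group
    have h4 : φ (lc δ) = φ (lc ρ) + φ (lc δ') := by
      rw [h1 _ _ (lc_homotopic (LG.mk_eq.mp h3)), h2, h1 _ _ (lc_conj A ρ)]
    rw [h4]
    calc ν (φ (lc ρ) + φ (lc δ')) ≤ ν (φ (lc ρ)) + ν (φ (lc δ')) := map_add_le_add _ _ _
      _ ≤ M + n * M := add_le_add (hM ρ hs) (ih δ' rfl)
      _ = ((n + 1 : ℕ) : ℝ) * M := by push_cast; ring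

end PCs

variable {N : Type*} [PseudoEMetricSpace N]

/-- Variant of the main theorem for compact spaces with the uniform local structure: the map is a
product of few conjugates of elements of a fixed finite set. -/
theorem main_PC [CompactSpace N] {r1 r2 : ENNReal} {ρ : ℝ} (hρ : 0 < ρ)
    (hr2 : r2 = ENNReal.ofReal (5 * ρ)) (H : LSC N r1 r2) :
    ∃ ε₀ > 0, ∃ C > 0, ∃ (m : ℕ) (a : Fin m → N) (S : ∀ i, Set (LG (a i))), (∀ i, (S i).Finite) ∧
      ∀ l > 0, ∀ ε, 0 < ε → ε < ε₀ → ∀ f : C(Circle, N), gapEnergy ε f ≤ ENNReal.ofReal l →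
        ∃ i, ∃ δ : Path (a i) (a i), ∃ k : ℕ, (k : ℝ) ≤ C * l ∧ f.Homotopic (lc δ) ∧
          PC (S i) k (LG.mk δ) := by
  classical
  -- finite net
  obtain ⟨m, a, hcov⟩ : ∃ (m : ℕ) (a : Fin m → N), ∀ p, ∃ i, edist p (a i) < ENNReal.ofReal ρ := by
    obtain ⟨t, ht⟩ := (isCompact_univ : IsCompact (univ : Set N)).elim_finite_subcover
      (fun x : N => Metric.eball x (ENNReal.ofReal ρ)) (fun x => Metric.isOpen_eball)
      (fun x _ => mem_iUnion.mpr ⟨x, Metric.mem_eball_self (ENNReal.ofReal_pos.mpr hρ)⟩)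
    refine ⟨t.card, fun i => (t.equivFin.symm i : N), fun p => ?_⟩
    have hp := ht (mem_univ p)
    simp only [mem_iUnion] at hp
    obtain ⟨x, hx, hpx⟩ := hp
    refine ⟨t.equivFin ⟨x, hx⟩, ?_⟩
    change edist p ((t.equivFin.symm (t.equivFin ⟨x, hx⟩) : t) : N) < _
    rw [Equiv.symm_apply_apply]
    exact hpx
  refine ⟨ρ / 6, by positivity, 1800 * m / ρ + 1, by positivity, m, a,
    fun i => SS (gg H a (a i)), fun i => SS_finite _, ?_⟩
  intro l hl ε hε hε0 f hE
  -- the number of colourings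
  set n := ⌊ρ / (3 * ε)⌋₊ with hn
  have hn1 : (n : ℝ) ≤ ρ / (3 * ε) := Nat.floor_le (by positivity)
  have hn2 : ρ / (6 * ε) ≤ n := by
    have h1 : ρ / (3 * ε) < n + 1 := Nat.lt_floor_add_one _
    have h2 : 1 ≤ ρ / (6 * ε) := by
      rw [le_div_iff₀ (by positivity)]; linarith
    have h3 : ρ / (3 * ε) = 2 * (ρ / (6 * ε)) := by field_simp; ring
    linarith
  have hn0 : 0 < n := by
    have : 0 < ρ / (6 * ε) := by positivity
    have : (0 : ℝ) < n := lt_of_lt_of_le this hn2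
    exact_mod_cast this
  have hn3 : 3 * ε * n ≤ ρ := by
    rw [le_div_iff₀ (by positivity)] at hn1
    linarith
  -- the scale
  obtain ⟨δ, hδ, hmod⟩ := lift_modulus f hε
  obtain ⟨K, hK⟩ : ∃ K : ℕ, 2 * L K ≤ δ := by
    obtain ⟨K, hK⟩ := pow_unbounded_of_one_lt (4 * π / δ) (by norm_num : (1 : ℝ) < 2)
    refine ⟨K, ?_⟩
    unfold L
    rw [div_lt_iff₀ hδ] at hK
    rw [← mul_div_assoc, div_le_iff₀ (by positivity)]
    linarith
  obtain ⟨X0, hX0, hfar⟩ := sampling f hε K
  set q : ℕ → ℕ → N := fun k j => f (Circle.exp (X0 (k, j % 2 ^ k))) with hq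
  have hqper : ∀ k j, q k (j + 2 ^ k) = q k j := by
    intro k j
    simp only [hq, Nat.add_mod_right]
  set X : ℕ → ℝ := fun j => X0 (K, j % 2 ^ K) + ((j / 2 ^ K : ℕ) : ℝ) * (2 * π) with hX
  have hqX : ∀ j, q K j = lift f (X j) := by
    intro j
    change f (Circle.exp (X0 (K, j % 2 ^ K))) =
      f (Circle.exp (X0 (K, j % 2 ^ K) + ((j / 2 ^ K : ℕ) : ℝ) * (2 * π)))
    congr 1
    exact (Circle.periodic_exp.nat_mul _ _).symm
  have hXpos : ∀ j : ℕ, L K * j ≤ X j ∧ X j < L K * (j + 1) := by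
    intro j
    have h1 := hX0 (K, j % 2 ^ K)
    have hdm := Nat.mod_add_div j (2 ^ K)
    have hdm' : ((j % 2 ^ K : ℕ) : ℝ) + 2 ^ K * ((j / 2 ^ K : ℕ) : ℝ) = j := by exact_mod_cast hdm
    have hL2 : L K * 2 ^ K = 2 * π := by unfold L; field_simp
    have h2 := h1.1
    have h3 := h1.2
    simp only at h2 h3
    simp only [hX]
    have h4 : ((j / 2 ^ K : ℕ) : ℝ) * (2 * π) = L K * (2 ^ K * ((j / 2 ^ K : ℕ) : ℝ)) := by
      rw [← hL2]; ring
    rw [h4]
    constructor
    · rw [← hdm']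
      nlinarith
    · calc X0 (K, j % 2 ^ K) + L K * (2 ^ K * ((j / 2 ^ K : ℕ) : ℝ))
          < L K * (((j % 2 ^ K : ℕ) : ℝ) + 1) + L K * (2 ^ K * ((j / 2 ^ K : ℕ) : ℝ)) := by linarith
        _ = L K * ((((j % 2 ^ K : ℕ) : ℝ) + 2 ^ K * ((j / 2 ^ K : ℕ) : ℝ)) + 1) := by ring
        _ = _ := by rw [hdm']
  have hXstep : ∀ j (t : I), edist (lift f (X j)) (seg (lift f) (X j) (X (j + 1)) t) ≤
      ENNReal.ofReal ε := by
    intro j t
    rw [seg_apply]
    apply hmod
    have h1 := hXpos j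
    have h2 := hXpos (j + 1)
    push_cast at h2
    have hLp := L_pos K
    have e1 : X j - ((1 - t) * X j + t * X (j + 1)) = t * (X j - X (j + 1)) := by ring
    rw [e1, abs_mul, abs_of_nonneg t.2.1]
    have h3 : |X j - X (j + 1)| ≤ 2 * L K := by
      rw [abs_le]
      constructor <;> nlinarith
    calc (t : ℝ) * |X j - X (j + 1)| ≤ 1 * (2 * L K) :=
          mul_le_mul t.2.2 h3 (abs_nonneg _) zero_le_one
      _ ≤ δ := by linarith
  have hKq : ∀ j, edist (q K j) (q K (j + 1)) ≤ ENNReal.ofReal ε := by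
    intro j
    have := hXstep j 1
    rw [Path.target] at this
    rw [hqX, hqX]
    exact this
  -- base point
  obtain ⟨i0, hi0⟩ := hcov (lift f 0)
  have hJ : ∀ x, Joined (a i0) (lift f x) := by
    intro x
    have h1 : edist (lift f 0) (a i0) < r2 := by
      rw [hr2]
      exact hi0.trans_le (ENNReal.ofReal_le_ofReal (by linarith))
    exact (show Joined (lift f 0) (a i0) from ⟨H.sh h1⟩).symm.trans ⟨seg (lift f) 0 x⟩
  obtain ⟨c, cnt, hc, hPC, hcnt⟩ := core_comb a (gg H a (a i0)) (r := 5 * ρ) hρ hε hcov le_rfl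
    (by linarith) (gg_one H a (a i0)) (fun i j k hij hjk hik => gg_mul H a (a i0) i j k
      (by rw [hr2]; exact hij) (by rw [hr2]; exact hjk) (by rw [hr2]; exact hik))
    hn0 hn3 q hqper K hKq
  obtain ⟨δ', hδ'⟩ := LG.mk_surj
    (rp (fun j => gg H a (a i0) (c (q K j)) (c (q K (j + 1)))) (2 ^ K))
  have hXn : X (2 ^ K) = X 0 + 2 * π := by
    simp only [hX]
    rw [Nat.mod_self, Nat.div_self (by positivity), Nat.zero_mod, Nat.zero_div]
    push_cast
    ring
  have hhom : f.Homotopic (lc δ') := by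
    refine class_eq H a (a i0) f c hρ hε (by linarith) hr2 hc hJ X hXstep (2 ^ K) hXn δ' ?_
    rw [hδ']
    congr 1
    ext j
    rw [hqX, hqX]
  refine ⟨i0, δ', cnt, ?_, hhom, by rw [hδ']; exact hPC⟩
  -- the bound
  have hfar' : ε * (farCount ε q K : ℝ) ≤ 150 * l := by
    have h1 : ENNReal.ofReal ε * (farCount ε q K : ℝ≥0∞) ≤ ENNReal.ofReal (150 * l) := by
      refine hfar.trans ?_
      rw [ENNReal.ofReal_mul (by norm_num)]
      refine mul_le_mul' (by norm_num) hE
    rw [← ENNReal.ofReal_natCast, ← ENNReal.ofReal_mul hε.le,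
      ENNReal.ofReal_le_ofReal_iff (by positivity)] at h1
    exact h1
  have hcnt' : (n : ℝ) * cnt ≤ 2 * m * farCount ε q K := by exact_mod_cast hcnt
  have h1 : ρ / (6 * ε) * cnt ≤ 2 * m * farCount ε q K :=
    (mul_le_mul_of_nonneg_right hn2 (Nat.cast_nonneg _)).trans hcnt'
  have h2 : ρ / 6 * cnt ≤ 2 * m * (150 * l) := by
    have h3 : ρ / 6 * cnt = ε * (ρ / (6 * ε) * cnt) := by field_simp
    rw [h3]
    calc ε * (ρ / (6 * ε) * cnt) ≤ ε * (2 * m * farCount ε q K) := by gcongr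
      _ = 2 * m * (ε * farCount ε q K) := by ring
      _ ≤ _ := by gcongr
  have h4 : (cnt : ℝ) ≤ 1800 * m / ρ * l := by
    rw [div_mul_eq_mul_div, le_div_iff₀ hρ]
    nlinarith
  nlinarith

end Pool.Agent.Helper119.Hur
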