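import Pool.Agent.Helper119.HurDefs
import Pool.Agent.Helper119.HurB

set_option autoImplicit false

/-! Closed one-forms have primitives along maps; periods are integrals. -/

namespace Pool.Agent.Helper119.Hur

open Set Topology Real
open scoped ContDiff Manifold ENNReal

section

variable {E : Type*} [NormedAddCommGroup E] [NormedSpace ℝ E]
  {H : Type*} [TopologicalSpace H] {𝓜 : ModelWithCorners ℝ E H}
  {N : Type*} [TopologicalSpace N] [ChartedSpace H N] [IsManifold 𝓜 ∞ N]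

theorem locConst {h : N → ℝ} {U : Set N} (hU : IsOpen U)
    (hh : ∀ x ∈ U, HasMFDerivAt 𝓜 𝓘(ℝ, ℝ) h x (0 : TangentSpace 𝓜 x →L[ℝ] ℝ)) {z : N} (hz : z ∈ U) :
    ∀ᶠ w in 𝓝 z, h w = h z := by
  have : IsManifold 𝓜 1 N := IsManifold.of_le (n := ∞) (by norm_cast)
  set e := extChartAt 𝓜 z with he
  have h1 : e.target ∩ e.symm ⁻¹' U ∈ 𝓝[range 𝓜] (e z) :=
    Filter.inter_mem (extChartAt_target_mem_nhdsWithin z)
      (mem_nhdsWithin_of_mem_nhds (extChartAt_preimage_mem_nhds (hU.mem_nhds hz)))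
  obtain ⟨ρ, hρ, hball⟩ := Metric.mem_nhdsWithin_iff.mp h1
  set W := Metric.ball (e z) ρ ∩ range 𝓜 with hW
  have hWc : Convex ℝ W := (convex_ball _ _).inter 𝓜.convex_range
  have hder : ∀ w ∈ W, HasFDerivWithinAt (h ∘ e.symm) (0 : E →L[ℝ] ℝ) W w := by
    intro w hw
    have hwt : w ∈ e.target := (hball hw).1
    have h2 := (mdifferentiableWithinAt_extChartAt_symm (I := 𝓜) hwt).hasMFDerivWithinAt
    have h3 := (hh (e.symm w) (hball hw).2).comp_hasMFDerivWithinAt w h2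
    let L : E →L[ℝ] E := mfderivWithin 𝓘(ℝ, E) 𝓜 (extChartAt 𝓜 z).symm (range 𝓜) w
    have h4 : HasFDerivWithinAt (h ∘ e.symm) ((0 : E →L[ℝ] ℝ).comp L) (range 𝓜) w :=
      hasMFDerivWithinAt_iff_hasFDerivWithinAt.mp h3
    rw [ContinuousLinearMap.zero_comp] at h4
    exact h4.mono inter_subset_right
  have hconst : ∀ w ∈ W, (h ∘ e.symm) w = (h ∘ e.symm) (e z) := by
    intro w hw
    have hz' : e z ∈ W := ⟨Metric.mem_ball_self hρ, mem_range_self _⟩
    have h5 := hWc.norm_image_sub_le_of_norm_hasFDerivWithin_le (C := 0) hder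
      (fun x _ => by simp) hz' hw
    rw [zero_mul] at h5
    exact sub_eq_zero.mp (norm_le_zero_iff.mp h5)
  have hV : e.source ∩ e ⁻¹' (Metric.ball (e z) ρ) ∈ 𝓝 z :=
    Filter.inter_mem (extChartAt_source_mem_nhds z)
      ((continuousAt_extChartAt z).preimage_mem_nhds (Metric.ball_mem_nhds _ hρ))
  filter_upwards [hV] with w hw
  have hw1 : e w ∈ W := ⟨hw.2, extChartAt_target_subset_range z (e.map_source hw.1)⟩
  have h6 := hconst _ hw1
  simp only [Function.comp] at h6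
  rwa [e.left_inv hw.1, e.left_inv (mem_extChartAt_source z)] at h6

theorem IsPrimitiveOn.loc_sub {η : CovField 𝓜 N} {g g' : N → ℝ} {U U' : Set N} (hU : IsOpen U)
    (hU' : IsOpen U') (h : IsPrimitiveOn 𝓜 η g U) (h' : IsPrimitiveOn 𝓜 η g' U') {z : N}
    (hz : z ∈ U ∩ U') : ∀ᶠ w in 𝓝 z, g w - g' w = g z - g' z := by
  refine locConst (𝓜 := 𝓜) (h := fun w => g w - g' w) (hU.inter hU') ?_ hz
  intro x hx
  have h1 := (h.2 x hx.1).sub (h'.2 x hx.2)
  rw [sub_self] at h1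
  exact h1

/-- primitive system of a closed form -/
noncomputable def PS (η : ClosedForm 𝓜 N) : PSys N where
  U p := (η.2 p).choose
  isOpen p := (η.2 p).choose_spec.1
  mem p := (η.2 p).choose_spec.2.1
  g p := (η.2 p).choose_spec.2.2.choose
  loc x y _ hz := IsPrimitiveOn.loc_sub (η.2 x).choose_spec.1 (η.2 y).choose_spec.1
    (η.2 x).choose_spec.2.2.choose_spec (η.2 y).choose_spec.2.2.choose_spec hz

theorem PS_prim (η : ClosedForm 𝓜 N) (p : N) : IsPrimitiveOn 𝓜 η.toField ((PS η).g p) ((PS η).U p) :=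
  (η.2 p).choose_spec.2.2.choose_spec

theorem prim_iff (η : ClosedForm 𝓜 N) {X : Type*} [TopologicalSpace X] {u : X → N}
    (hu : Continuous u) {G : X → ℝ} : Prim (PS η) u G ↔
      ∀ x, ∃ U, IsOpen U ∧ u x ∈ U ∧ ∃ g, IsPrimitiveOn 𝓜 η.toField g U ∧
        ∀ᶠ y in 𝓝 x, G y - g (u y) = G x - g (u x) := by
  constructor
  · intro h x
    exact ⟨(PS η).U (u x), (PS η).isOpen _, (PS η).mem _, (PS η).g (u x), PS_prim η _,
      h x (u x) ((PS η).mem _)⟩
  · intro h x i hi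
    obtain ⟨U, hU, hx, g, hg, hG⟩ := h x
    have h1 := IsPrimitiveOn.loc_sub hU ((PS η).isOpen i) hg (PS_prim η i) ⟨hx, hi⟩
    filter_upwards [hG, hu.continuousAt.eventually h1] with y h2 h3
    linarith

theorem per_add (η₁ η₂ : ClosedForm 𝓜 N) (f : C(Circle, N)) :
    per (PS (η₁ + η₂)) f = per (PS η₁) f + per (PS η₂) f := by
  obtain ⟨G₁, h₁⟩ := exists_prim (P := PS η₁) (onLine f)
  obtain ⟨G₂, h₂⟩ := exists_prim (P := PS η₂) (onLine f)
  have h : Prim (PS (η₁ + η₂)) (onLine f) (G₁ + G₂) := by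
    rw [prim_iff _ (onLine f).continuous] at h₁ h₂ ⊢
    intro x
    obtain ⟨U₁, hU₁, hx₁, g₁, hg₁, hG₁⟩ := h₁ x
    obtain ⟨U₂, hU₂, hx₂, g₂, hg₂, hG₂⟩ := h₂ x
    refine ⟨U₁ ∩ U₂, hU₁.inter hU₂, ⟨hx₁, hx₂⟩, g₁ + g₂,
      (hg₁.mono 𝓜 inter_subset_left).add 𝓜 (hg₂.mono 𝓜 inter_subset_right), ?_⟩
    filter_upwards [hG₁, hG₂] with y hy₁ hy₂
    simp only [Pi.add_apply]
    linarith
  rw [per_eq h, per_eq h₁, per_eq h₂]
  simp only [Pi.add_apply]
  ring

theorem per_smul (c : ℝ) (η : ClosedForm 𝓜 N) (f : C(Circle, N)) :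
    per (PS (c • η)) f = c * per (PS η) f := by
  obtain ⟨G, h₁⟩ := exists_prim (P := PS η) (onLine f)
  have h : Prim (PS (c • η)) (onLine f) (c • G) := by
    rw [prim_iff _ (onLine f).continuous] at h₁ ⊢
    intro x
    obtain ⟨U, hU, hx, g, hg, hG⟩ := h₁ x
    refine ⟨U, hU, hx, c • g, hg.smul 𝓜 c, ?_⟩
    filter_upwards [hG] with y hy
    simp only [Pi.smul_apply, smul_eq_mul]
    rw [← mul_sub, hy, mul_sub]
  rw [per_eq h, per_eq h₁]
  simp only [Pi.smul_apply, smul_eq_mul]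
  ring

theorem per_exact {η : ClosedForm 𝓜 N} (hη : η ∈ exactForms 𝓜 N) (f : C(Circle, N)) :
    per (PS η) f = 0 := by
  obtain ⟨g, hg⟩ := hη
  have h : Prim (PS η) (onLine f) (fun t => g (onLine f t)) := by
    rw [prim_iff _ (onLine f).continuous]
    intro x
    exact ⟨univ, isOpen_univ, mem_univ _, g, hg, Filter.Eventually.of_forall fun y => by simp⟩
  rw [per_eq h]
  change g (f (Circle.exp (2 * π))) - g (f (Circle.exp 0)) = 0
  rw [Circle.exp_two_pi, Circle.exp_zero, sub_self]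

/-- the Hurewicz class of a circle map -/
noncomputable def hur (f : C(Circle, N)) : Hom1 𝓜 N :=
  (exactForms 𝓜 N).liftQ
    { toFun := fun η => per (PS η) f
      map_add' := fun η₁ η₂ => per_add η₁ η₂ f
      map_smul' := fun c η => per_smul c η f } (fun _ hη => per_exact hη f)

theorem hur_mk (f : C(Circle, N)) (η : ClosedForm 𝓜 N) :
    pairing 𝓜 (hur f) η = per (PS η) f := rfl

theorem hom_ext {h h' : Hom1 𝓜 N} (H : ∀ η, pairing 𝓜 h η = pairing 𝓜 h' η) : h = h' := by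
  refine LinearMap.ext (M := H1dR 𝓜 N) fun q => ?_
  obtain ⟨η, rfl⟩ := Submodule.Quotient.mk_surjective (exactForms 𝓜 N) q
  exact H η

theorem pairing_add (h h' : Hom1 𝓜 N) (η : ClosedForm 𝓜 N) :
    pairing 𝓜 (h + h') η = pairing 𝓜 h η + pairing 𝓜 h' η := rfl

theorem per_eq_loopIntegral (η : ClosedForm 𝓜 N) (f : C(Circle, N)) (hf : ContMDiff (𝓡 1) 𝓜 1 f) :
    per (PS η) f = loopIntegral 𝓜 η.toField f := by
  obtain ⟨G, h⟩ := exists_prim (P := PS η) (onLine f)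
  rw [per_eq h]
  rw [prim_iff _ (onLine f).continuous] at h
  have hu : ContMDiff 𝓘(ℝ, ℝ) 𝓜 1 (fun t : ℝ => f (Circle.exp t)) := hf.comp contMDiff_circleExp
  have hG : ∀ θ, ContDiffAt ℝ 1 G θ ∧ HasDerivAt G
      (η.toField (f (Circle.exp θ)) (mfderiv 𝓘(ℝ, ℝ) 𝓜 (fun t : ℝ => f (Circle.exp t)) θ (1 : ℝ))) θ := by
    intro θ
    obtain ⟨U, hU, hx, g, hg, hGe⟩ := h θ
    have hGg : G =ᶠ[𝓝 θ] fun t => (g ∘ fun t : ℝ => f (Circle.exp t)) t + (G θ - g (f (Circle.exp θ))) := by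
      filter_upwards [hGe] with y hy
      change G y - g (f (Circle.exp y)) = G θ - g (f (Circle.exp θ)) at hy
      simp only [Function.comp]
      linarith
    have hx' : f (Circle.exp θ) ∈ U := hx
    have h1 : ContMDiffAt 𝓜 𝓘(ℝ, ℝ) 1 g (f (Circle.exp θ)) :=
      ((hg.1 _ hx').contMDiffAt (hU.mem_nhds hx')).of_le (by norm_cast)
    have h2 : ContMDiffAt 𝓘(ℝ, ℝ) 𝓘(ℝ, ℝ) 1 (g ∘ fun t : ℝ => f (Circle.exp t)) θ :=
      ContMDiffAt.comp θ h1 (hu θ)
    have h3 : ContDiffAt ℝ 1 (g ∘ fun t : ℝ => f (Circle.exp t)) θ := h2.contDiffAt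
    have h4 : HasMFDerivAt 𝓘(ℝ, ℝ) 𝓜 (fun t : ℝ => f (Circle.exp t)) θ
        (mfderiv 𝓘(ℝ, ℝ) 𝓜 (fun t : ℝ => f (Circle.exp t)) θ) :=
      ((hu θ).mdifferentiableAt (by norm_num)).hasMFDerivAt
    let L : ℝ →L[ℝ] ℝ := (η.toField (f (Circle.exp θ))).comp
      (mfderiv 𝓘(ℝ, ℝ) 𝓜 (fun t : ℝ => f (Circle.exp t)) θ)
    have h5' : HasFDerivAt (g ∘ fun t : ℝ => f (Circle.exp t)) L θ :=
      (HasMFDerivAt.comp θ (hg.2 _ hx') h4).hasFDerivAt
    have h5 : HasDerivAt (g ∘ fun t : ℝ => f (Circle.exp t)) (L 1) θ := h5'.hasDerivAt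
    refine ⟨?_, ?_⟩
    · exact (h3.add contDiffAt_const).congr_of_eventuallyEq hGg
    · exact (h5.add_const _).congr_of_eventuallyEq hGg
  have hC : ContDiff ℝ 1 G := contDiff_iff_contDiffAt.mpr fun θ => (hG θ).1
  have hder : deriv G = fun θ => integrand 𝓜 η.toField f θ :=
    funext fun θ => (hG θ).2.deriv
  unfold loopIntegral
  rw [← hder, intervalIntegral.integral_deriv_eq_sub (fun x _ => (hG x).2.differentiableAt)
    ((hC.continuous_deriv le_rfl).intervalIntegrable _ _)]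

end

end Pool.Agent.Helper119.Hur
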