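import Mathlib

set_option autoImplicit false

/-! One-forms, first de Rham cohomology and integrals over circle maps. -/

namespace Pool.Agent.Helper119.Hur

open Set Topology Real
open scoped ContDiff Manifold ENNReal

section

variable {E : Type*} [NormedAddCommGroup E] [NormedSpace ℝ E]
  {H : Type*} [TopologicalSpace H] (𝓜 : ModelWithCorners ℝ E H)
  (N : Type*) [TopologicalSpace N] [ChartedSpace H N]

/-- Covector fields on `N`: at every point a continuous linear functional on the tangent space. -/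
def CovField : Type _ := (x : N) → (TangentSpace 𝓜 x →L[ℝ] ℝ)

noncomputable instance covGroup : AddCommGroup (CovField 𝓜 N) :=
  @Pi.addCommGroup N (fun x => TangentSpace 𝓜 x →L[ℝ] ℝ) (fun _ => ContinuousLinearMap.addCommGroup)

noncomputable instance covModule : Module ℝ (CovField 𝓜 N) :=
  @Pi.module N (fun x => TangentSpace 𝓜 x →L[ℝ] ℝ) ℝ _ _ (fun _ => ContinuousLinearMap.module)

variable {N}

/-- `IsPrimitiveOn 𝓜 η g U`: the function `g` is smooth on `U` and its differential at every point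
`x` of `U` is the covector `η x`. -/
def IsPrimitiveOn (η : CovField 𝓜 N) (g : N → ℝ) (U : Set N) : Prop :=
  ContMDiffOn 𝓜 𝓘(ℝ, ℝ) ∞ g U ∧ ∀ x ∈ U, HasMFDerivAt 𝓜 𝓘(ℝ, ℝ) g x (η x)

theorem IsPrimitiveOn.add {η₁ η₂ : CovField 𝓜 N} {g₁ g₂ : N → ℝ}
    {U : Set N} (h₁ : IsPrimitiveOn 𝓜 η₁ g₁ U) (h₂ : IsPrimitiveOn 𝓜 η₂ g₂ U) :
    IsPrimitiveOn 𝓜 (η₁ + η₂) (g₁ + g₂) U :=
  ⟨h₁.1.add h₂.1, fun x hx => (h₁.2 x hx).add (h₂.2 x hx)⟩

theorem IsPrimitiveOn.smul {η : CovField 𝓜 N} {g : N → ℝ}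
    {U : Set N} (c : ℝ) (h : IsPrimitiveOn 𝓜 η g U) :
    IsPrimitiveOn 𝓜 (c • η) (c • g) U :=
  ⟨(contDiff_const_smul c).contMDiff.comp_contMDiffOn h.1, fun x hx => (h.2 x hx).const_smul c⟩

theorem IsPrimitiveOn.zero (U : Set N) : IsPrimitiveOn 𝓜 (0 : CovField 𝓜 N) 0 U :=
  ⟨contMDiffOn_const, fun _ _ => hasMFDerivAt_const _ _⟩

theorem IsPrimitiveOn.mono {η : CovField 𝓜 N} {g : N → ℝ}
    {U V : Set N} (h : IsPrimitiveOn 𝓜 η g U) (hV : V ⊆ U) : IsPrimitiveOn 𝓜 η g V :=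
  ⟨h.1.mono hV, fun x hx => h.2 x (hV hx)⟩

variable (N)

/-- The closed smooth one-forms on `N`, as a subspace of the covector fields: covector fields that
near every point are the differential of a smooth function (for smooth covector fields this is the
same as having exterior derivative zero, by the Poincaré lemma). -/
def closedForms : Submodule ℝ (CovField 𝓜 N) where
  carrier := {η | ∀ p : N, ∃ U : Set N, IsOpen U ∧ p ∈ U ∧ ∃ g : N → ℝ, IsPrimitiveOn 𝓜 η g U}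
  add_mem' := by
    intro η₁ η₂ h₁ h₂ p
    obtain ⟨U₁, hU₁, hp₁, g₁, hg₁⟩ := h₁ p
    obtain ⟨U₂, hU₂, hp₂, g₂, hg₂⟩ := h₂ p
    exact ⟨U₁ ∩ U₂, hU₁.inter hU₂, ⟨hp₁, hp₂⟩, g₁ + g₂,
      (hg₁.mono 𝓜 inter_subset_left).add 𝓜 (hg₂.mono 𝓜 inter_subset_right)⟩
  zero_mem' := fun p => ⟨univ, isOpen_univ, mem_univ p, 0, IsPrimitiveOn.zero 𝓜 _⟩
  smul_mem' := by
    intro c η h p
    obtain ⟨U, hU, hp, g, hg⟩ := h p
    exact ⟨U, hU, hp, c • g, hg.smul 𝓜 c⟩

/-- The type of closed one-forms. -/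
def ClosedForm : Type _ := closedForms 𝓜 N

noncomputable instance closedGroup : AddCommGroup (ClosedForm 𝓜 N) :=
  Submodule.addCommGroup (closedForms 𝓜 N)

noncomputable instance closedModule : Module ℝ (ClosedForm 𝓜 N) :=
  Submodule.module (closedForms 𝓜 N)

variable {𝓜 N} in
/-- The covector field underlying a closed one-form. -/
def ClosedForm.toField (η : ClosedForm 𝓜 N) : CovField 𝓜 N :=
  Subtype.val (p := fun x => x ∈ closedForms 𝓜 N) η

/-- The exact one-forms, inside the closed ones: differentials of smooth functions on `N`. -/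
def exactForms : Submodule ℝ (ClosedForm 𝓜 N) where
  carrier := {η | ∃ g : N → ℝ, IsPrimitiveOn 𝓜 η.toField g univ}
  add_mem' := by
    rintro η₁ η₂ ⟨g₁, hg₁⟩ ⟨g₂, hg₂⟩
    exact ⟨g₁ + g₂, hg₁.add 𝓜 hg₂⟩
  zero_mem' := ⟨0, IsPrimitiveOn.zero 𝓜 _⟩
  smul_mem' := by
    rintro c η ⟨g, hg⟩
    exact ⟨c • g, hg.smul 𝓜 c⟩

/-- The first de Rham cohomology of `N`: closed one-forms modulo exact one-forms. -/
def H1dR : Type _ := ClosedForm 𝓜 N ⧸ exactForms 𝓜 N

noncomputable instance cohGroup : AddCommGroup (H1dR 𝓜 N) :=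
  Submodule.Quotient.addCommGroup (exactForms 𝓜 N)

noncomputable instance cohModule : Module ℝ (H1dR 𝓜 N) :=
  Submodule.Quotient.module (exactForms 𝓜 N)

variable {N} in
/-- The cohomology class of a closed one-form. -/
noncomputable def coclass (η : ClosedForm 𝓜 N) : H1dR 𝓜 N := Submodule.Quotient.mk η

/-- The first real homology of `N`: linear functionals on the first de Rham cohomology. -/
def Hom1 : Type _ := H1dR 𝓜 N →ₗ[ℝ] ℝ

noncomputable instance homGroup : AddCommGroup (Hom1 𝓜 N) :=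
  @LinearMap.addCommGroup ℝ ℝ (H1dR 𝓜 N) ℝ _ _ _ _ _ _ _

noncomputable instance homModule : Module ℝ (Hom1 𝓜 N) :=
  @LinearMap.module ℝ ℝ ℝ (H1dR 𝓜 N) ℝ _ _ _ _ _ _ _ _ _ _

variable {N}

/-- The pairing of a first homology class with the class of a closed one-form. -/
noncomputable def pairing (h : Hom1 𝓜 N) (η : ClosedForm 𝓜 N) : ℝ :=
  (show H1dR 𝓜 N →ₗ[ℝ] ℝ from h) (coclass 𝓜 η)

/-- The differential of the lift `θ ↦ f(e^{iθ})` of a circle map. -/
noncomputable def liftDiff (f : C(Circle, N)) (θ : ℝ) :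
    ℝ →L[ℝ] TangentSpace 𝓜 (f (Circle.exp θ)) :=
  mfderiv 𝓘(ℝ, ℝ) 𝓜 (fun t : ℝ => f (Circle.exp t)) θ

/-- The velocity of the lift `θ ↦ f(e^{iθ})` of a circle map. -/
noncomputable def velocity (f : C(Circle, N)) (θ : ℝ) : TangentSpace 𝓜 (f (Circle.exp θ)) :=
  liftDiff 𝓜 f θ 1

/-- The covector field `η` at `f(e^{iθ})` applied to the velocity of `θ ↦ f(e^{iθ})`. -/
noncomputable def integrand (η : CovField 𝓜 N) (f : C(Circle, N)) (θ : ℝ) : ℝ :=
  η (f (Circle.exp θ)) (velocity 𝓜 f θ)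

/-- The integral of the pull-back of the covector field `η` under the circle map `f`:
the integral over `θ` in `[0, 2π]` of `η` at `f(e^{iθ})` applied to the velocity of
`θ ↦ f(e^{iθ})`. -/
noncomputable def loopIntegral (η : CovField 𝓜 N) (f : C(Circle, N)) : ℝ :=
  ∫ θ in (0 : ℝ)..(2 * π), integrand 𝓜 η f θ

/-- The circle map is continuously differentiable. -/
def IsC1 (f : C(Circle, N)) : Prop := ContMDiff (𝓡 1) 𝓜 1 f

/-- `IsHurewicz 𝓜 Hur`: the map `Hur` from continuous circle maps to the first real homology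
is homotopy invariant, and for a circle map `f` of class `C^1` the
functional `Hur f` sends the class of a closed one-form to its integral over `f`. -/
def IsHurewicz (Hur : C(Circle, N) → Hom1 𝓜 N) : Prop :=
  (∀ f g : C(Circle, N), f.Homotopic g → Hur f = Hur g) ∧
  ∀ f : C(Circle, N), IsC1 𝓜 f → ∀ η : ClosedForm 𝓜 N,
    pairing 𝓜 (Hur f) η = loopIntegral 𝓜 η.toField f

end

/-- The scaled gap potential with `m = 1`: the integral over pairs of angles `θ, φ` in `[0, 2π]`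
with `d(f(e^{iφ}), f(e^{iθ})) ≥ ε` of `ε / |e^{iφ} - e^{iθ}|^2`. -/
noncomputable def scaledGap {N : Type*} [PseudoEMetricSpace N] (ε : ℝ) (f : C(Circle, N)) : ℝ≥0∞ :=
  open Classical in
  ∫⁻ θ in Set.Icc (0 : ℝ) (2 * π), ∫⁻ φ in Set.Icc (0 : ℝ) (2 * π),
    if ENNReal.ofReal ε ≤ edist (f (Circle.exp φ)) (f (Circle.exp θ)) then
      ENNReal.ofReal (ε / ‖(Circle.exp φ : ℂ) - (Circle.exp θ : ℂ)‖ ^ 2) else 0

/-- `GapBound Φ ν`: there are `C > 0` and `ε₀ > 0` such that `ν (Φ f) ≤ C * scaledGap ε f` for all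
`ε` in `(0, ε₀)` and all continuous circle maps `f`. -/
def GapBound {N : Type*} [PseudoEMetricSpace N] {V : Type*} [AddCommGroup V] [Module ℝ V]
    (Φ : C(Circle, N) → V) (ν : Seminorm ℝ V) : Prop :=
  ∃ C > 0, ∃ ε₀ > 0, ∀ ε : ℝ, 0 < ε → ε < ε₀ → ∀ f : C(Circle, N),
    ENNReal.ofReal (ν (Φ f)) ≤ ENNReal.ofReal C * scaledGap ε f

end Pool.Agent.Helper119.Hur
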